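import Mathlib

/-!
# A Krylov transitive and weakly transitive group whose square is not weakly transitive
-/

open Polynomial

namespace Pool.Agent.Results.MP_1abb56_al.SquareNotWeakly

/-- Torsion-free abelian groups. -/
def TorsionFree (G : Type) [AddCommGroup G] : Prop := ∀ (n : ℕ) (x : G), n ≠ 0 → n • x = 0 → x = 0

/-- The `p`-height. -/
noncomputable def height {G : Type} [AddCommGroup G] (p : ℕ) (x : G) : ℕ∞ :=
  sSup {m : ℕ∞ | ∃ n : ℕ, m = n ∧ ∃ y : G, (p ^ n) • y = x}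

/-- Equality of characteristics. -/
def SameChar {G : Type} [AddCommGroup G] (x y : G) : Prop :=
  ∀ p : ℕ, p.Prime → height p x = height p y

/-- Krylov transitive groups. -/
def KrylovTransitive (G : Type) [AddCommGroup G] : Prop :=
  ∀ x y : G, SameChar x y → ∃ φ : G →+ G, φ x = y

/-- Weakly transitive groups. -/
def WeaklyTransitive (G : Type) [AddCommGroup G] : Prop :=
  ∀ x y : G, (∃ φ : G →+ G, φ x = y) → (∃ ψ : G →+ G, ψ y = x) → ∃ η : G ≃+ G, η x = y

lemma le_height {G : Type} [AddCommGroup G] (p n : ℕ) (x : G) :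
    (n : ℕ∞) ≤ height p x ↔ ∃ y : G, (p ^ n) • y = x := by
  constructor
  · intro h
    by_contra hcon
    cases n with
    | zero => exact hcon ⟨x, by simp⟩
    | succ n =>
      have : height p x ≤ (n : ℕ∞) := by
        apply sSup_le
        rintro _ ⟨k, rfl, y, hy⟩
        rw [Nat.cast_le]
        by_contra hk
        apply hcon
        refine ⟨p ^ (k - (n + 1)) • y, ?_⟩
        rw [← hy, smul_smul, ← pow_add]
        congr 2
        omega
      have h2 := h.trans this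
      rw [Nat.cast_le] at h2
      omega
  · intro h
    exact le_sSup ⟨n, rfl, h⟩

lemma SameChar.iff {G : Type} [AddCommGroup G] {x y : G} (h : SameChar x y) {p : ℕ}
    (hp : p.Prime) (n : ℕ) : (∃ z : G, (p ^ n) • z = x) ↔ ∃ z : G, (p ^ n) • z = y := by
  rw [← le_height, ← le_height, h p hp]

/-- The inclusion of `ℤ[t]` into `ℚ[t]`. -/
noncomputable abbrev io : ℤ[X] →+* ℚ[X] := mapRingHom (Int.castRingHom ℚ)

lemma io_inj : Function.Injective io := map_injective _ Int.cast_injective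

instance : Countable ℤ[X] := by
  have : Function.Injective (fun f : ℤ[X] => f.toFinsupp.coeff) := by
    intro f g h
    apply toFinsupp_injective
    exact AddMonoidAlgebra.coeff_injective h
  exact this.countable

lemma exists_assignment : ∃ v : ℕ → ℤ[X], ∀ f, {p | p.Prime ∧ v p = f}.Infinite := by
  obtain ⟨e, he⟩ := exists_surjective_nat ℤ[X]
  refine ⟨fun p => e (Nat.unpair (Nat.primeCounting' p)).1, ?_⟩
  intro f
  obtain ⟨k, hk⟩ := he f
  have : Function.Injective (fun l : ℕ => Nat.nth Nat.Prime (Nat.pair k l)) := by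
    intro a b h
    have := Nat.nth_injective Nat.infinite_setOfPred_prime h
    have h2 := congrArg Nat.unpair this
    rw [Nat.unpair_pair, Nat.unpair_pair] at h2
    exact (Prod.ext_iff.1 h2).2
  refine Set.infinite_of_injective_forall_mem this ?_
  intro l
  refine ⟨Nat.nth_mem_of_infinite Nat.infinite_setOfPred_prime _, ?_⟩
  simp [Nat.primeCounting'_nth_eq, hk]

/-- The assignment of a polynomial to every prime. -/
noncomputable def vv : ℕ → ℤ[X] := Classical.choose exists_assignment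

lemma vv_spec (f : ℤ[X]) : {p | p.Prime ∧ vv p = f}.Infinite :=
  Classical.choose_spec exists_assignment f

/-- The group, as a subgroup of `ℚ[t]`. -/
noncomputable def S : AddSubgroup ℚ[X] where
  carrier := {x | ∀ p : ℕ, p.Prime → ∃ N : ℕ, N.Coprime p ∧ ∃ a b : ℤ[X],
    ((N : ℚ[X]) * (p : ℚ[X])) * x = io ((p : ℤ[X]) * a + vv p * b)}
  zero_mem' := fun p _ => ⟨1, Nat.coprime_one_left p, 0, 0, by simp⟩
  add_mem' := by
    intro x y hx hy p hp
    obtain ⟨N, hN, a, b, h⟩ := hx p hp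
    obtain ⟨M, hM, c, d, h'⟩ := hy p hp
    refine ⟨N * M, Nat.Coprime.mul_left hN hM, (M : ℤ[X]) * a + (N : ℤ[X]) * c,
      (M : ℤ[X]) * b + (N : ℤ[X]) * d, ?_⟩
    have e : io ((p : ℤ[X]) * ((M : ℤ[X]) * a + (N : ℤ[X]) * c) +
        vv p * ((M : ℤ[X]) * b + (N : ℤ[X]) * d)) =
        (M : ℚ[X]) * io ((p : ℤ[X]) * a + vv p * b) +
          (N : ℚ[X]) * io ((p : ℤ[X]) * c + vv p * d) := by
      simp only [map_add, map_mul, map_natCast]
      ring
    rw [e, ← h, ← h']
    push_cast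
    ring
  neg_mem' := by
    intro x hx p hp
    obtain ⟨N, hN, a, b, h⟩ := hx p hp
    refine ⟨N, hN, -a, -b, ?_⟩
    have e : io ((p : ℤ[X]) * -a + vv p * -b) = - io ((p : ℤ[X]) * a + vv p * b) := by
      simp only [map_add, map_mul, map_neg]
      ring
    rw [e, ← h]
    ring

lemma mem_S {x : ℚ[X]} : x ∈ S ↔ ∀ p : ℕ, p.Prime → ∃ N : ℕ, N.Coprime p ∧ ∃ a b : ℤ[X],
    ((N : ℚ[X]) * (p : ℚ[X])) * x = io ((p : ℤ[X]) * a + vv p * b) := Iff.rfl

lemma mul_mem_S (f : ℤ[X]) {x : ℚ[X]} (hx : x ∈ S) : io f * x ∈ S := by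
  rw [mem_S] at hx ⊢
  intro p hp
  obtain ⟨N, hN, a, b, h⟩ := hx p hp
  refine ⟨N, hN, f * a, f * b, ?_⟩
  have e : io ((p : ℤ[X]) * (f * a) + vv p * (f * b)) =
      io f * io ((p : ℤ[X]) * a + vv p * b) := by
    simp only [map_add, map_mul]
    ring
  rw [e, ← h]
  ring

lemma one_mem_S : (1 : ℚ[X]) ∈ S := by
  rw [mem_S]
  intro p _
  refine ⟨1, Nat.coprime_one_left p, 1, 0, ?_⟩
  simp

lemma io_mem_S (f : ℤ[X]) : io f ∈ S := by
  have := mul_mem_S f one_mem_S
  rwa [mul_one] at this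

/-- Clearing denominators. -/
lemma clear (f : ℚ[X]) : ∃ d : ℕ, d ≠ 0 ∧ ∃ g : ℤ[X], (d : ℚ[X]) * f = io g := by
  induction f using Polynomial.induction_on' with
  | add p q hp hq =>
    obtain ⟨d, hd, g, hg⟩ := hp
    obtain ⟨e, he, k, hk⟩ := hq
    refine ⟨d * e, mul_ne_zero hd he, (e : ℤ[X]) * g + (d : ℤ[X]) * k, ?_⟩
    rw [map_add, map_mul, map_mul, ← hg, ← hk, map_natCast, map_natCast]
    push_cast
    ring
  | monomial n a =>
    refine ⟨a.den, a.den_nz, monomial n a.num, ?_⟩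
    have h1 : io (monomial n a.num) = monomial n (a.num : ℚ) := by
      simp [io]
    rw [h1, ← C_eq_natCast, C_mul_monomial]
    congr 1
    rw [mul_comm]
    exact_mod_cast Rat.mul_den_eq_num a

lemma natCast_ne {d : ℕ} (hd : d ≠ 0) : (d : ℚ[X]) ≠ 0 := by exact_mod_cast hd

/-- Division by a coprime number. -/
lemma coprime_div {x : ℚ[X]} {N : ℕ} {p : ℕ} (hx : x ∈ S) (hc : N.Coprime p)
    (h : ∃ z ∈ S, (p : ℚ[X]) * z = (N : ℚ[X]) * x) : ∃ z ∈ S, (p : ℚ[X]) * z = x := by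
  obtain ⟨z, hz, hzx⟩ := h
  have hb : (1 : ℤ) = N * Nat.gcdA N p + p * Nat.gcdB N p := by
    have := Nat.gcd_eq_gcd_ab N p
    rw [Nat.Coprime.gcd_eq_one hc] at this
    exact_mod_cast this
  have hb' : (1 : ℚ[X]) = N * (Nat.gcdA N p : ℤ) + p * (Nat.gcdB N p : ℤ) := by
    exact_mod_cast congrArg (fun t : ℤ => (t : ℚ[X])) hb
  have i1 : ((Nat.gcdA N p : ℤ) : ℚ[X]) * z ∈ S := by
    have := mul_mem_S ((Nat.gcdA N p : ℤ) : ℤ[X]) hz
    rwa [map_intCast] at this
  have i2 : ((Nat.gcdB N p : ℤ) : ℚ[X]) * x ∈ S := by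
    have := mul_mem_S ((Nat.gcdB N p : ℤ) : ℤ[X]) hx
    rwa [map_intCast] at this
  refine ⟨_, S.add_mem i1 i2, ?_⟩
  linear_combination (Nat.gcdA N p : ℚ[X]) * hzx - x * hb'

/-- Elements divisible by `v` are divisible by the primes assigned to `v`. -/
lemma div_of_dvd {v : ℤ[X]} {x : ℚ[X]} (hx : x ∈ S) (hv : io v ∣ x) :
    ∃ m : ℕ, m ≠ 0 ∧ ∀ p : ℕ, p.Prime → vv p = v → m.Coprime p →
      ∃ z ∈ S, (p : ℚ[X]) * z = x := by
  obtain ⟨q, rfl⟩ := hv
  obtain ⟨m, hm, g, hg⟩ := clear q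
  refine ⟨m, hm, ?_⟩
  intro p hp hpv hmp
  apply coprime_div hx hmp
  have hp0 : (p : ℚ[X]) ≠ 0 := natCast_ne hp.ne_zero
  have hC : (p : ℚ[X]) * C ((p : ℚ)⁻¹) = 1 := by
    rw [← C_eq_natCast, ← C_mul, mul_inv_cancel₀ (by exact_mod_cast hp.ne_zero), C_1]
  refine ⟨C ((p : ℚ)⁻¹) * ((m : ℚ[X]) * (io v * q)), ?_, ?_⟩
  · rw [mem_S]
    intro l hl
    by_cases hlp : l = p
    · subst hlp
      refine ⟨1, Nat.coprime_one_left _, 0, g, ?_⟩
      rw [hpv, mul_zero, zero_add, map_mul, ← hg]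
      push_cast
      linear_combination (m * (io v * q)) * hC
    · obtain ⟨N, hN, a, b, h⟩ := (mem_S.1 hx) l hl
      refine ⟨N * p, Nat.Coprime.mul_left hN ((Nat.coprime_primes hp hl).2 (Ne.symm hlp)),
        (m : ℤ[X]) * a, (m : ℤ[X]) * b, ?_⟩
      have e : io ((l : ℤ[X]) * ((m : ℤ[X]) * a) + vv l * ((m : ℤ[X]) * b)) =
          (m : ℚ[X]) * io ((l : ℤ[X]) * a + vv l * b) := by
        simp only [map_add, map_mul, map_natCast]
        ring
      rw [e, ← h]
      push_cast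
      linear_combination (N * l * (m * (io v * q))) * hC
  · linear_combination (m * (io v * q)) * hC

/-- Elements divisible by infinitely many primes assigned to `v` are divisible by `v`. -/
lemma dvd_of_div {v : ℤ[X]} (hv : v ≠ 0) {x : ℚ[X]}
    (h : {p : ℕ | p.Prime ∧ vv p = v ∧ ∃ z ∈ S, (p : ℚ[X]) * z = x}.Infinite) : io v ∣ x := by
  obtain ⟨m, hm, g, hg⟩ := clear x
  have hiv : io v ≠ 0 := by
    intro h0
    apply hv
    apply io_inj
    rw [h0, map_zero]
  obtain ⟨d₁, hd₁, Q₁, hQ₁⟩ := clear (io g / io v)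
  obtain ⟨d₂, hd₂, R₁, hR₁⟩ := clear (io g % io v)
  -- common denominator
  set d := d₁ * d₂ with hd
  have hd0 : d ≠ 0 := mul_ne_zero hd₁ hd₂
  set Q : ℤ[X] := (d₂ : ℤ[X]) * Q₁ with hQ
  set R : ℤ[X] := (d₁ : ℤ[X]) * R₁ with hR
  have hRio : io R = (d : ℚ[X]) * (io g % io v) := by
    rw [hR, map_mul, ← hR₁, map_natCast, hd]; push_cast; ring
  have hQio : io Q = (d : ℚ[X]) * (io g / io v) := by
    rw [hQ, map_mul, ← hQ₁, map_natCast, hd]; push_cast; ring
  have hdg : (d : ℤ[X]) * g = v * Q + R := by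
    apply io_inj
    rw [map_mul, map_add, map_mul, hRio, hQio, map_natCast]
    have := EuclideanDomain.div_add_mod (io g) (io v)
    linear_combination (-(d : ℚ[X])) * this
  have hdeg : R.degree < v.degree := by
    have h1 : (io R).degree < (io v).degree := by
      rw [hRio, ← C_eq_natCast, degree_C_mul (by exact_mod_cast hd0)]
      exact EuclideanDomain.mod_lt _ hiv
    have h2 : (io R).degree = R.degree := degree_map_eq_of_injective Int.cast_injective R
    have h3 : (io v).degree = v.degree := degree_map_eq_of_injective Int.cast_injective v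
    rwa [h2, h3] at h1
  have hR0 : R = 0 := by
    by_contra hRne
    obtain ⟨i, hi⟩ : ∃ i, R.coeff i ≠ 0 := by
      by_contra hcon
      push Not at hcon
      exact hRne (Polynomial.ext (by simpa using hcon))
    obtain ⟨p, ⟨hp, hpv, z, hz, hzx⟩, hbig⟩ := h.exists_gt
      (m + v.leadingCoeff.natAbs + (R.coeff i).natAbs)
    obtain ⟨N, hN, a, b, hab⟩ := (mem_S.1 hz) p hp
    rw [hpv] at hab
    have e1 : (N : ℤ[X]) * g = (m : ℤ[X]) * ((p : ℤ[X]) * a + v * b) := by
      apply io_inj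
      rw [map_mul, map_mul, ← hab, ← hg, map_natCast, map_natCast, ← hzx]
      ring
    have : Fact p.Prime := ⟨hp⟩
    set r : ℤ[X] →+* (ZMod p)[X] := mapRingHom (Int.castRingHom (ZMod p)) with hr
    have hNp : IsUnit ((N : ℕ) : (ZMod p)[X]) := by
      have : IsUnit ((N : ℕ) : ZMod p) := (ZMod.unitOfCoprime N hN).isUnit
      rw [← C_eq_natCast]
      exact this.map C
    have e2 : (N : (ZMod p)[X]) * r g = (m : (ZMod p)[X]) * (r v * r b) := by
      have := congrArg r e1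
      rw [map_mul, map_mul, map_add, map_mul, map_mul, map_natCast, map_natCast,
        map_natCast] at this
      rw [this]
      have hp0 : ((p : ℕ) : (ZMod p)[X]) = 0 := by
        rw [← C_eq_natCast]; simp
      rw [hp0]; ring
    have e3 : r v ∣ r R := by
      have h1 : r v ∣ (N : (ZMod p)[X]) * r g := ⟨(m : (ZMod p)[X]) * r b, by rw [e2]; ring⟩
      have h2 : r v ∣ r g := (hNp.dvd_mul_left).1 h1
      have h3 : r R = (d : (ZMod p)[X]) * r g - r v * r Q := by
        have := congrArg r hdg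
        rw [map_mul, map_add, map_mul, map_natCast] at this
        rw [this]; ring
      rw [h3]
      exact dvd_sub (h2.mul_left _) (dvd_mul_right _ _)
    have hlead : ((v.leadingCoeff : ℤ) : ZMod p) ≠ 0 := by
      rw [Ne, ZMod.intCast_zmod_eq_zero_iff_dvd]
      intro hdvd
      have h1 := Int.natAbs_dvd_natAbs.2 hdvd
      rw [Int.natAbs_natCast] at h1
      have h2 := Nat.le_of_dvd (Int.natAbs_pos.2 (leadingCoeff_ne_zero.2 hv)) h1
      omega
    have hdegv : (r v).degree = v.degree := degree_map_eq_of_leadingCoeff_ne_zero _ hlead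
    have hrR : r R = 0 := by
      by_contra hne
      have h1 := degree_le_of_dvd e3 hne
      have h2 : (r R).degree ≤ R.degree := degree_map_le
      rw [hdegv] at h1
      exact absurd (h1.trans h2) (not_le.2 hdeg)
    have h1 : ((R.coeff i : ℤ) : ZMod p) = 0 := by
      have := congrArg (fun t : (ZMod p)[X] => t.coeff i) hrR
      simpa [hr] using this
    rw [ZMod.intCast_zmod_eq_zero_iff_dvd] at h1
    have h2 := Int.natAbs_dvd_natAbs.2 h1
    rw [Int.natAbs_natCast] at h2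
    have h3 := Nat.le_of_dvd (Int.natAbs_pos.2 hi) h2
    omega
  rw [hR0, add_zero] at hdg
  have hfin : (m : ℚ[X]) * ((d : ℚ[X]) * x) = io v * io Q := by
    rw [← map_mul, ← hdg, map_mul, ← hg, map_natCast]; ring
  have hunit : IsUnit (((m : ℕ) : ℚ[X]) * ((d : ℕ) : ℚ[X])) := by
    rw [← Nat.cast_mul, ← C_eq_natCast]
    apply IsUnit.map
    rw [isUnit_iff_ne_zero]
    exact_mod_cast mul_ne_zero hm hd0
  have : io v ∣ (((m : ℕ) : ℚ[X]) * ((d : ℕ) : ℚ[X])) * x := ⟨io Q, by rw [← hfin]; ring⟩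
  exact (hunit.dvd_mul_left).1 this

/-- The group. -/
abbrev G : Type := S

/-- Every endomorphism is multiplication by a polynomial with rational coefficients. -/
lemma endo_rat (φ : G →+ G) : ∃ f : ℚ[X], ∀ x : G, (φ x : ℚ[X]) = f * x := by
  let one : G := ⟨1, one_mem_S⟩
  let e : ℤ[X] → G := fun f => ⟨io f, io_mem_S f⟩
  have hpres : ∀ (v : ℤ[X]) (x : G), v ≠ 0 → io v ∣ (x : ℚ[X]) → io v ∣ (φ x : ℚ[X]) := by
    intro v x hv hvx
    obtain ⟨m, hm, h⟩ := div_of_dvd x.2 hvx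
    apply dvd_of_div hv
    have hinf : {p : ℕ | (p.Prime ∧ vv p = v) ∧ m < p}.Infinite := by
      have h1 := (vv_spec v).sdiff (Set.finite_le_nat m)
      refine h1.mono ?_
      rintro p ⟨h2, h3⟩
      refine ⟨h2, ?_⟩
      simpa using h3
    refine hinf.mono ?_
    rintro p ⟨⟨hp, hpv⟩, hmp⟩
    obtain ⟨z, hz, hzx⟩ := h p hp hpv
      (Nat.coprime_of_lt_prime hm hmp hp).symm
    refine ⟨hp, hpv, φ ⟨z, hz⟩, (φ ⟨z, hz⟩).2, ?_⟩
    have h1 : x = p • (⟨z, hz⟩ : G) := by
      apply Subtype.ext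
      rw [← hzx]; simp
    rw [h1, map_nsmul]
    simp
  have hmon : ∀ n : ℕ, ((φ (e (X ^ n)) : G) : ℚ[X]) = ((φ one : G) : ℚ[X]) * X ^ n := by
    intro n
    rcases Nat.eq_zero_or_pos n with rfl | hn
    · have : e (X ^ 0) = one := Subtype.ext (by simp [e, one])
      rw [this]; simp
    · rw [← sub_eq_zero]
      apply eq_zero_of_infinite_isRoot
      have hroot : ∀ b : ℤ, IsRoot (((φ (e (X ^ n)) : G) : ℚ[X]) - ((φ one : G) : ℚ[X]) * X ^ n) (b : ℚ) := by
        intro b
        have hv : (X ^ n - C (b ^ n) : ℤ[X]) ≠ 0 := X_pow_sub_C_ne_zero hn _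
        have h1 := hpres _ (e (X ^ n - C (b ^ n))) hv dvd_rfl
        have h2 : e (X ^ n - C (b ^ n)) = e (X ^ n) - (b ^ n) • one := by
          apply Subtype.ext
          simp [e, one]
        have h2' : φ (e (X ^ n) - (b ^ n) • one) = φ (e (X ^ n)) - (b ^ n) • φ one := by
          rw [map_sub, map_zsmul]
        rw [h2, h2'] at h1
        have h3 : ((φ (e (X ^ n)) - (b ^ n) • φ one : G) : ℚ[X]) =
            ((φ (e (X ^ n)) : G) : ℚ[X]) - ((b ^ n : ℤ) : ℚ[X]) * ((φ one : G) : ℚ[X]) := by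
          simp
        rw [h3] at h1
        have h4 : io (X ^ n - C (b ^ n)) = X ^ n - ((b ^ n : ℤ) : ℚ[X]) := by
          simp [io]
        rw [h4] at h1
        have h5 := eval_dvd (x := (b : ℚ)) h1
        have h6 : eval (b : ℚ) (X ^ n - ((b ^ n : ℤ) : ℚ[X])) = 0 := by
          simp
        rw [h6, zero_dvd_iff] at h5
        rw [IsRoot.def]
        simp only [eval_sub, eval_mul, eval_pow, eval_X, eval_intCast, Int.cast_pow] at h5 ⊢
        linear_combination h5
      refine Set.infinite_of_injective_forall_mem (f := fun b : ℤ => (b : ℚ)) Int.cast_injective ?_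
      intro b
      exact hroot b
  have hpoly : ∀ f : ℤ[X], ((φ (e f) : G) : ℚ[X]) = ((φ one : G) : ℚ[X]) * io f := by
    intro f
    induction f using Polynomial.induction_on' with
    | add p q hp hq =>
      have : e (p + q) = e p + e q := Subtype.ext (by simp [e])
      rw [this, map_add, map_add, mul_add, ← hp, ← hq]
      rfl
    | monomial n a =>
      have h1 : e (monomial n a) = a • e (X ^ n) := by
        apply Subtype.ext
        show io (monomial n a) = ((a • e (X ^ n) : G) : ℚ[X])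
        rw [AddSubgroup.coe_zsmul]
        show io (monomial n a) = a • io (X ^ n)
        rw [← C_mul_X_pow_eq_monomial, map_mul]
        simp
      rw [h1, map_zsmul, AddSubgroup.coe_zsmul, hmon, zsmul_eq_mul]
      have h2 : io (monomial n a) = (a : ℚ[X]) * X ^ n := by
        rw [← C_mul_X_pow_eq_monomial, map_mul]
        simp
      rw [h2]; ring
  refine ⟨((φ one : G) : ℚ[X]), fun x => ?_⟩
  obtain ⟨d, hd, g, hg⟩ := clear (x : ℚ[X])
  have h1 : d • x = e g := by
    apply Subtype.ext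
    rw [AddSubgroup.coe_nsmul, nsmul_eq_mul, hg]
  have h2 := hpoly g
  rw [← h1, map_nsmul, ← hg, AddSubgroup.coe_nsmul, nsmul_eq_mul] at h2
  have h3 : (d : ℚ[X]) * (((φ x : G) : ℚ[X]) - ((φ one : G) : ℚ[X]) * x) = 0 := by linear_combination h2
  exact sub_eq_zero.1 ((mul_eq_zero.1 h3).resolve_left (natCast_ne hd))

lemma int_of_sq {f : ℚ[X]} (h : f * f ∈ S) : ∃ g : ℤ[X], f = io g := by
  classical
  have hex : ∃ d : ℕ, d ≠ 0 ∧ ∃ g : ℤ[X], (d : ℚ[X]) * f = io g := clear f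
  obtain ⟨hd, g, hg⟩ := Nat.find_spec hex
  set d := Nat.find hex with hdef
  by_cases h1 : d = 1
  · exact ⟨g, by rw [← hg, h1]; simp⟩
  exfalso
  obtain ⟨p, hp, e, he⟩ := Nat.exists_prime_and_dvd h1
  have he0 : e ≠ 0 := by rintro rfl; exact hd (by rw [he]; ring)
  obtain ⟨N, hN, a, b, hab⟩ := (mem_S.1 h) p hp
  set u : ℤ[X] := (p : ℤ[X]) * a + vv p * b with hu
  have e1 : (N : ℤ[X]) * (g * g) = (p : ℤ[X]) * ((e : ℤ[X]) ^ 2 * u) := by
    apply io_inj
    have hp0 : (p : ℚ[X]) ≠ 0 := natCast_ne hp.ne_zero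
    simp only [map_mul, map_pow, map_natCast]
    rw [← hab, ← hg, he]
    push_cast
    ring
  have hpp : Prime ((p : ℕ) : ℤ[X]) := by
    have : ((p : ℕ) : ℤ[X]) = C (p : ℤ) := by simp
    rw [this, Polynomial.prime_C_iff]
    exact Nat.prime_iff_prime_int.1 hp
  have h2 : ((p : ℕ) : ℤ[X]) ∣ (N : ℤ[X]) * (g * g) := ⟨_, e1⟩
  have h3 : ¬ ((p : ℕ) : ℤ[X]) ∣ (N : ℤ[X]) := by
    intro h3
    have h4 : ((p : ℕ) : ℤ[X]) = C (p : ℤ) := by simp
    have h5 : ((N : ℕ) : ℤ[X]) = C (N : ℤ) := by simp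
    rw [h4, h5, C_dvd_iff_dvd_coeff] at h3
    have h6 := h3 0
    rw [coeff_C_zero] at h6
    have h7 : p ∣ N := by exact_mod_cast h6
    have h8 := Nat.Coprime.eq_one_of_dvd hN.symm h7
    exact hp.one_lt.ne' h8
  have h4 : ((p : ℕ) : ℤ[X]) ∣ g := by
    rcases hpp.dvd_or_dvd h2 with h5 | h5
    · exact absurd h5 h3
    · rcases hpp.dvd_or_dvd h5 with h6 | h6 <;> exact h6
  obtain ⟨g', rfl⟩ := h4
  have h5 : (e : ℚ[X]) * f = io g' := by
    have hp0 : (p : ℚ[X]) ≠ 0 := natCast_ne hp.ne_zero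
    apply mul_left_cancel₀ hp0
    rw [map_mul, map_natCast] at hg
    rw [← hg, he]
    push_cast
    ring
  have h6 : e < d := by
    rw [he]
    have := hp.one_lt
    have he1 : 0 < e := Nat.pos_of_ne_zero he0
    nlinarith
  exact Nat.find_min hex h6 ⟨he0, g', h5⟩

/-- Every endomorphism is multiplication by a polynomial with integer coefficients. -/
lemma endo_int (φ : G →+ G) : ∃ f : ℤ[X], ∀ x : G, (φ x : ℚ[X]) = io f * x := by
  obtain ⟨f, hf⟩ := endo_rat φ
  have h1 : f * f ∈ S := by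
    have e1 := hf ⟨1, one_mem_S⟩
    have e2 := hf (φ ⟨1, one_mem_S⟩)
    rw [e1] at e2
    have e3 : (φ (φ ⟨1, one_mem_S⟩) : ℚ[X]) = f * f := by rw [e2]; ring
    rw [← e3]
    exact (φ (φ ⟨1, one_mem_S⟩)).2
  obtain ⟨g, rfl⟩ := int_of_sq h1
  exact ⟨g, hf⟩

/-- Multiplication by a polynomial. -/
noncomputable def mulBy (f : ℤ[X]) : G →+ G where
  toFun x := ⟨io f * x, mul_mem_S f x.2⟩
  map_zero' := Subtype.ext (by simp)
  map_add' x y := Subtype.ext (by simp [mul_add])

lemma coe_mulBy (f : ℤ[X]) (x : G) : (mulBy f x : ℚ[X]) = io f * x := rfl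

/-- Heights of nonzero elements are finite. -/
lemma height_finite {p : ℕ} (hp : p.Prime) {x : G} (hx : x ≠ 0) :
    ∃ n : ℕ, ¬ ∃ z : G, (p ^ n) • z = x := by
  obtain ⟨m, hm, g, hg⟩ := clear (x : ℚ[X])
  have hg0 : g ≠ 0 := by
    rintro rfl
    rw [map_zero] at hg
    rcases mul_eq_zero.1 hg with h | h
    · exact natCast_ne hm h
    · exact hx (Subtype.ext h)
  obtain ⟨i, hi⟩ : ∃ i, g.coeff i ≠ 0 := by
    by_contra hcon
    push Not at hcon
    exact hg0 (Polynomial.ext (by simpa using hcon))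
  refine ⟨(g.coeff i).natAbs + 1, ?_⟩
  rintro ⟨z, hz⟩
  obtain ⟨N, hN, a, b, hab⟩ := (mem_S.1 z.2) p hp
  set u : ℤ[X] := (p : ℤ[X]) * a + vv p * b with hu
  have hz' : ((p ^ ((g.coeff i).natAbs + 1) : ℕ) : ℚ[X]) * z = x := by
    rw [← hz, AddSubgroup.coe_nsmul, nsmul_eq_mul]
  have e1 : ((N : ℕ) : ℤ[X]) * g = ((p ^ (g.coeff i).natAbs : ℕ) : ℤ[X]) * ((m : ℤ[X]) * u) := by
    apply io_inj
    simp only [map_mul, map_natCast]
    rw [← hab, ← hg, ← hz']
    push_cast
    ring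
  have e2 : (p : ℤ) ^ (g.coeff i).natAbs ∣ (N : ℤ) * g.coeff i := by
    have h1 : (((N : ℕ) : ℤ[X]) * g).coeff i =
      (((p ^ (g.coeff i).natAbs : ℕ) : ℤ[X]) * ((m : ℤ[X]) * u)).coeff i := by rw [e1]
    have h2 : (((N : ℕ) : ℤ[X]) * g).coeff i = (N : ℤ) * g.coeff i := by
      rw [show ((N : ℕ) : ℤ[X]) = C (N : ℤ) by simp, coeff_C_mul]
    have h3 : (((p ^ (g.coeff i).natAbs : ℕ) : ℤ[X]) * ((m : ℤ[X]) * u)).coeff i =
        (p : ℤ) ^ (g.coeff i).natAbs * ((m : ℤ[X]) * u).coeff i := by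
      rw [show ((p ^ (g.coeff i).natAbs : ℕ) : ℤ[X]) = C ((p : ℤ) ^ (g.coeff i).natAbs) by simp,
        coeff_C_mul]
    rw [h2, h3] at h1
    exact ⟨_, h1⟩
  have hcop : IsCoprime ((p : ℤ) ^ (g.coeff i).natAbs) (N : ℤ) := by
    apply IsCoprime.pow_left
    rw [Nat.isCoprime_iff_coprime]
    exact hN.symm
  have e3 := hcop.dvd_of_dvd_mul_left e2
  have e4 := Int.natAbs_dvd_natAbs.2 e3
  have e5 := Nat.le_of_dvd (Int.natAbs_pos.2 hi) e4
  have e6 : ((p : ℤ) ^ (g.coeff i).natAbs).natAbs = p ^ (g.coeff i).natAbs := by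
    rw [Int.natAbs_pow, Int.natAbs_natCast]
  rw [e6] at e5
  exact absurd e5 (not_le.2 (Nat.lt_pow_self hp.one_lt))

/-- Divisibility by powers of `p` cancels numbers prime to `p`. -/
lemma cancel {p n N : ℕ} (hc : N.Coprime p) {y : G} (h : ∃ z : G, (p ^ n) • z = N • y) :
    ∃ z : G, (p ^ n) • z = y := by
  obtain ⟨z, hz⟩ := h
  have hc' : N.Coprime (p ^ n) := Nat.Coprime.pow_right n hc
  have hb : (1 : ℤ) = N * Nat.gcdA N (p ^ n) + (p ^ n : ℕ) * Nat.gcdB N (p ^ n) := by
    have := Nat.gcd_eq_gcd_ab N (p ^ n)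
    rw [Nat.Coprime.gcd_eq_one hc'] at this
    exact_mod_cast this
  refine ⟨(Nat.gcdA N (p ^ n)) • z + (Nat.gcdB N (p ^ n)) • y, ?_⟩
  have h1 : (p ^ n) • ((Nat.gcdA N (p ^ n)) • z) = (N * Nat.gcdA N (p ^ n) : ℤ) • y := by
    rw [smul_comm, hz, ← natCast_zsmul y N, smul_smul, mul_comm]
  have h2 : (p ^ n) • ((Nat.gcdB N (p ^ n)) • y) =
      (((p ^ n : ℕ) : ℤ) * Nat.gcdB N (p ^ n)) • y := by
    rw [← natCast_zsmul _ (p ^ n), smul_smul]
  rw [smul_add, h1, h2, ← add_smul, ← hb, one_smul]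

/-- If `b y = a x` and the heights agree then no prime divides `a` without dividing `b`. -/
lemma no_prime {x y : G} (hx : x ≠ 0) (hxy : SameChar x y) {a b : ℕ} (h : b • y = a • x)
    {p : ℕ} (hp : p.Prime) (hpa : p ∣ a) : ¬ b.Coprime p := by
  intro hb
  classical
  obtain ⟨a', rfl⟩ := hpa
  have hex := height_finite hp hx
  have h1 := Nat.find_spec hex
  have h0 : Nat.find hex ≠ 0 := by
    intro h0
    rw [h0] at h1
    exact h1 ⟨x, by simp⟩
  obtain ⟨n, hn⟩ := Nat.exists_eq_succ_of_ne_zero h0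
  have h2 : ∃ z : G, (p ^ n) • z = x := by
    have := Nat.find_min hex (m := n) (by omega)
    exact not_not.1 this
  obtain ⟨z, hz⟩ := h2
  apply h1
  rw [hn]
  rw [hxy.iff hp]
  apply cancel hb
  refine ⟨a' • z, ?_⟩
  rw [h, ← hz, smul_smul, smul_smul]
  congr 1
  rw [Nat.succ_eq_add_one, pow_succ]
  ring

lemma krylov : KrylovTransitive G := by
  intro x y hxy
  have hxy' : SameChar y x := fun p hp => (hxy p hp).symm
  by_cases hx : x = 0
  · by_cases hy : y = 0
    · exact ⟨0, by simp [hy]⟩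
    · exfalso
      obtain ⟨n, hn⟩ := height_finite Nat.prime_two hy
      apply hn
      rw [← hxy.iff Nat.prime_two]
      exact ⟨0, by simp [hx]⟩
  have hy : y ≠ 0 := by
    rintro rfl
    obtain ⟨n, hn⟩ := height_finite Nat.prime_two hx
    apply hn
    rw [hxy.iff Nat.prime_two]
    exact ⟨0, by simp⟩
  have key : ∀ x y : G, x ≠ 0 → SameChar x y → (x : ℚ[X]) ∣ y := by
    intro x y hx hxy
    obtain ⟨m, hm, g, hg⟩ := clear (x : ℚ[X])
    have hg0 : g ≠ 0 := by
      rintro rfl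
      rw [map_zero] at hg
      rcases mul_eq_zero.1 hg with h | h
      · exact natCast_ne hm h
      · exact hx (Subtype.ext h)
    have hunit : IsUnit ((m : ℕ) : ℚ[X]) := by
      rw [← C_eq_natCast]
      apply IsUnit.map
      rw [isUnit_iff_ne_zero]
      exact_mod_cast hm
    have hdx : io g ∣ (x : ℚ[X]) := by
      rw [← hg]
      exact (hunit.mul_left_dvd).2 dvd_rfl
    obtain ⟨l, hl, h⟩ := div_of_dvd x.2 hdx
    have hgy : io g ∣ (y : ℚ[X]) := by
      apply dvd_of_div hg0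
      have hinf : {p : ℕ | (p.Prime ∧ vv p = g) ∧ l < p}.Infinite := by
        have h1 := (vv_spec g).sdiff (Set.finite_le_nat l)
        refine h1.mono ?_
        rintro p ⟨h2, h3⟩
        refine ⟨h2, ?_⟩
        simpa using h3
      refine hinf.mono ?_
      rintro p ⟨⟨hp, hpv⟩, hmp⟩
      obtain ⟨z, hz, hzx⟩ := h p hp hpv
        (Nat.coprime_of_lt_prime hl hmp hp).symm
      have h1 : ∃ z : G, (p ^ 1) • z = x := by
        refine ⟨⟨z, hz⟩, ?_⟩
        apply Subtype.ext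
        rw [← hzx]; simp
      rw [hxy.iff hp] at h1
      obtain ⟨w, hw⟩ := h1
      refine ⟨hp, hpv, w, w.2, ?_⟩
      rw [← hw]; simp
    refine dvd_trans ?_ hgy
    rw [← hg]
    exact dvd_mul_left _ _
  obtain ⟨q, hq⟩ := key x y hx hxy
  obtain ⟨q', hq'⟩ := key y x hy hxy'
  have hxx : (x : ℚ[X]) ≠ 0 := fun h => hx (Subtype.ext h)
  have hqq : q * q' = 1 := by
    apply mul_left_cancel₀ hxx
    rw [mul_one, ← mul_assoc, ← hq, ← hq']
  have hqu : IsUnit q := IsUnit.of_mul_eq_one _ hqq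
  obtain ⟨c, hc, rfl⟩ := Polynomial.isUnit_iff.1 hqu
  have hc0 : c ≠ 0 := hc.ne_zero
  -- `c = ±1`
  have hcabs : c.den • y = c.num • x := by
    apply Subtype.ext
    rw [AddSubgroup.coe_nsmul, AddSubgroup.coe_zsmul, hq, nsmul_eq_mul, zsmul_eq_mul]
    have : ((c.den : ℕ) : ℚ[X]) * C c = ((c.num : ℤ) : ℚ[X]) := by
      rw [← C_eq_natCast, ← C_eq_intCast, ← C_mul]
      congr 1
      rw [mul_comm]
      exact_mod_cast Rat.mul_den_eq_num c
    linear_combination (x : ℚ[X]) * this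
  -- replace `x` by `± x` to have natural numbers
  obtain ⟨x', hx', hx'0, hxc⟩ : ∃ x' : G, (x' = x ∨ x' = -x) ∧ x' ≠ 0 ∧
      c.den • y = c.num.natAbs • x' := by
    rcases le_total 0 c.num with h | h
    · refine ⟨x, Or.inl rfl, hx, ?_⟩
      rw [hcabs]
      conv_lhs => rw [← Int.natAbs_of_nonneg h]
      rw [natCast_zsmul]
    · refine ⟨-x, Or.inr rfl, neg_ne_zero.2 hx, ?_⟩
      rw [hcabs]
      have : c.num = -(c.num.natAbs : ℤ) := by omega
      conv_lhs => rw [this]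
      rw [neg_smul, natCast_zsmul, smul_neg]
  have hsame : SameChar x' y := by
    rcases hx' with rfl | rfl
    · exact hxy
    · intro p hp
      rw [← hxy p hp]
      unfold height
      congr 1
      ext m
      constructor
      · rintro ⟨n, rfl, z, hz⟩
        exact ⟨n, rfl, -z, by rw [smul_neg, hz, neg_neg]⟩
      · rintro ⟨n, rfl, z, hz⟩
        exact ⟨n, rfl, -z, by rw [smul_neg, hz]⟩
  have hnum : c.num.natAbs = 1 := by
    by_contra hne
    obtain ⟨p, hp, hpd⟩ := Nat.exists_prime_and_dvd hne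
    apply no_prime hx'0 hsame hxc hp hpd
    exact (Nat.Coprime.coprime_dvd_left hpd c.reduced).symm
  have hden : c.den = 1 := by
    by_contra hne
    obtain ⟨p, hp, hpd⟩ := Nat.exists_prime_and_dvd hne
    apply no_prime hy (fun p hp => (hsame p hp).symm) hxc.symm hp hpd
    rw [hnum]; exact Nat.coprime_one_left p
  rw [hnum, hden, one_smul, one_smul] at hxc
  rcases hx' with rfl | rfl
  · exact ⟨AddMonoidHom.id _, hxc.symm⟩
  · exact ⟨-AddMonoidHom.id _, hxc.symm⟩

lemma weakly : WeaklyTransitive G := by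
  rintro x y ⟨φ, hφ⟩ ⟨ψ, hψ⟩
  by_cases hx : x = 0
  · subst hx
    refine ⟨AddEquiv.refl _, ?_⟩
    rw [← hφ]; simp
  obtain ⟨f, hf⟩ := endo_int φ
  obtain ⟨g, hg⟩ := endo_int ψ
  have hfg : f * g = 1 := by
    apply io_inj
    have hxx : (x : ℚ[X]) ≠ 0 := fun h => hx (Subtype.ext h)
    apply mul_right_cancel₀ hxx
    have h1 := hf x
    have h2 := hg y
    rw [hφ] at h1
    rw [hψ, h1] at h2
    rw [map_mul, map_one, one_mul]
    linear_combination -h2
  refine ⟨{ toFun := mulBy f, invFun := mulBy g, left_inv := ?_, right_inv := ?_,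
            map_add' := (mulBy f).map_add }, ?_⟩
  · intro z
    apply Subtype.ext
    rw [coe_mulBy, coe_mulBy, ← mul_assoc, ← map_mul, mul_comm g f, hfg]
    simp
  · intro z
    apply Subtype.ext
    rw [coe_mulBy, coe_mulBy, ← mul_assoc, ← map_mul, hfg]
    simp
  · apply Subtype.ext
    show (mulBy f x : ℚ[X]) = y
    rw [coe_mulBy, ← hf, hφ]

/-- Components of an endomorphism of the square. -/
lemma endo_sq (η : G × G →+ G × G) : ∃ a b c d : ℤ[X], ∀ x y : G,
    ((η (x, y)).1 : ℚ[X]) = io a * x + io b * y ∧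
      ((η (x, y)).2 : ℚ[X]) = io c * x + io d * y := by
  obtain ⟨a, ha⟩ := endo_int ((AddMonoidHom.fst G G).comp (η.comp (AddMonoidHom.inl G G)))
  obtain ⟨b, hb⟩ := endo_int ((AddMonoidHom.fst G G).comp (η.comp (AddMonoidHom.inr G G)))
  obtain ⟨c, hc⟩ := endo_int ((AddMonoidHom.snd G G).comp (η.comp (AddMonoidHom.inl G G)))
  obtain ⟨d, hd⟩ := endo_int ((AddMonoidHom.snd G G).comp (η.comp (AddMonoidHom.inr G G)))
  refine ⟨a, b, c, d, fun x y => ?_⟩
  have h : η (x, y) = η (x, 0) + η (0, y) := by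
    rw [← map_add]; simp
  rw [h]
  have h1 : ((η (x, 0)).1 : ℚ[X]) = io a * x := ha x
  have h2 : ((η (0, y)).1 : ℚ[X]) = io b * y := hb y
  have h3 : ((η (x, 0)).2 : ℚ[X]) = io c * x := hc x
  have h4 : ((η (0, y)).2 : ℚ[X]) = io d * y := hd y
  constructor
  · rw [← h1, ← h2]; rfl
  · rw [← h3, ← h4]; rfl

lemma not_weakly_sq : ¬ WeaklyTransitive (G × G) := by
  intro h
  let e : ℤ[X] → G := fun f => ⟨io f, io_mem_S f⟩
  have he : ∀ f, ((e f : G) : ℚ[X]) = io f := fun f => rfl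
  obtain ⟨η, hη⟩ := h (e X, e 5) (e (2 * X), e 5)
    ⟨(mulBy 2).prodMap (AddMonoidHom.id G), by
      refine Prod.ext ?_ rfl
      apply Subtype.ext
      show io 2 * io X = io (2 * X)
      rw [map_mul]⟩
    ⟨((mulBy 3).comp (AddMonoidHom.fst G G) - (mulBy X).comp (AddMonoidHom.snd G G)).prod
        (AddMonoidHom.snd G G), by
      refine Prod.ext ?_ rfl
      apply Subtype.ext
      show io 3 * io (2 * X) - io X * io 5 = io X
      rw [← map_mul, ← map_mul, ← map_sub]
      congr 1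
      ring⟩
  obtain ⟨a, b, c, d, hab⟩ := endo_sq (η : G × G →+ G × G)
  obtain ⟨a', b', c', d', hab'⟩ := endo_sq (η.symm : G × G →+ G × G)
  have q1 : X * a + 5 * b = 2 * X := by
    apply io_inj
    have := (hab (e X) (e 5)).1
    have h2 : ((η (e X, e 5)).1 : ℚ[X]) = io a * e X + io b * e 5 := this
    rw [hη] at h2
    have h3 : io (2 * X) = io a * io X + io b * io 5 := h2
    rw [h3]
    simp only [map_add, map_mul]
    ring
  have q2 : X * c + 5 * d = 5 := by
    apply io_inj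
    have := (hab (e X) (e 5)).2
    have h2 : ((η (e X, e 5)).2 : ℚ[X]) = io c * e X + io d * e 5 := this
    rw [hη] at h2
    have h3 : io 5 = io c * io X + io d * io 5 := h2
    conv_rhs => rw [h3]
    simp only [map_add, map_mul]
    ring
  have hcomp : ∀ x y : G, (x : ℚ[X]) = io a' * (io a * x + io b * y) +
        io b' * (io c * x + io d * y) ∧
      (y : ℚ[X]) = io c' * (io a * x + io b * y) + io d' * (io c * x + io d * y) := by
    intro x y
    have h1 : ((η (x, y)).1 : ℚ[X]) = io a * x + io b * y := (hab x y).1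
    have h2 : ((η (x, y)).2 : ℚ[X]) = io c * x + io d * y := (hab x y).2
    have h3 := hab' (η (x, y)).1 (η (x, y)).2
    have h4 : (η.symm : G × G →+ G × G) ((η (x, y)).1, (η (x, y)).2) = (x, y) :=
      η.symm_apply_apply (x, y)
    rw [h4, h1, h2] at h3
    exact h3
  have r1 := hcomp (e 1) (e 0)
  have r2 := hcomp (e 0) (e 1)
  simp only [he, map_one, map_zero, mul_one, mul_zero, add_zero, zero_add] at r1 r2
  have hdet : (a' * d' - b' * c') * (a * d - b * c) = 1 := by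
    apply io_inj
    simp only [map_mul, map_sub, map_one]
    linear_combination (-1) * r1.1 * (io c' * io b + io d' * io d) - r2.2 +
      r2.1 * (io c' * io a + io d' * io c)
  have u0 : (a * d - b * c).coeff 0 = 1 ∨ (a * d - b * c).coeff 0 = -1 := by
    have h1 := congrArg (fun t : ℤ[X] => t.coeff 0) hdet
    simp only [mul_coeff_zero, coeff_one_zero] at h1
    exact Int.isUnit_iff.1 (IsUnit.of_mul_eq_one_right _ h1)
  have k1 : 5 * b.coeff 0 = 0 := by
    have h1 := congrArg (fun t : ℤ[X] => t.coeff 0) q1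
    simp [coeff_ofNat_mul] at h1
    simp [h1]
  have k2 : a.coeff 0 + 5 * b.coeff 1 = 2 := by
    have h1 := congrArg (fun t : ℤ[X] => t.coeff 1) q1
    simp [coeff_ofNat_mul, coeff_X_mul] at h1
    exact h1
  have k3 : 5 * d.coeff 0 = 5 := by
    have h1 := congrArg (fun t : ℤ[X] => t.coeff 0) q2
    simp [coeff_ofNat_mul] at h1
    omega
  have k4 : (a * d - b * c).coeff 0 = a.coeff 0 * d.coeff 0 - b.coeff 0 * c.coeff 0 := by
    rw [coeff_sub, mul_coeff_zero, mul_coeff_zero]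
  have k5 : d.coeff 0 = 1 := by omega
  have k6 : b.coeff 0 = 0 := by omega
  rw [k4, k5, k6] at u0
  omega

/-- There is a torsion-free abelian group that is Krylov transitive and weakly transitive and whose
square is not weakly transitive. -/
theorem result : ∃ (G : Type) (_ : AddCommGroup G), TorsionFree G ∧ KrylovTransitive G ∧
    WeaklyTransitive G ∧ ¬ WeaklyTransitive (G × G) := by
  refine ⟨G, inferInstance, ?_, krylov, weakly, not_weakly_sq⟩
  intro n x hn h
  apply Subtype.ext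
  have h1 : (n : ℚ[X]) * x = 0 := by
    have := congrArg (fun t : G => (t : ℚ[X])) h
    simpa using this
  exact (mul_eq_zero.1 h1).resolve_left (natCast_ne hn)

end Pool.Agent.Results.MP_1abb56_al.SquareNotWeakly
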